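import Mathlib
import Pool.Agent.H.MP_ca288e_gt.B

namespace Pool.Agent.H.MP_eb94e1_gt

open Set Filter Topology Cardinal

noncomputable section

def Goal : Prop :=
  ∃ (X : Type) (_ : TopologicalSpace X), T4Space X ∧
    (∀ 𝒰 : Set (Set X), (∀ U ∈ 𝒰, IsOpen U) → ⋃₀ 𝒰 = Set.univ →
      ∃ 𝒱 ⊆ 𝒰, 𝒱.Countable ∧ Dense (⋃₀ 𝒱)) ∧
    (∃ 𝒰 : Set (Set X), (∀ U ∈ 𝒰, IsOpen U ∧ U.Nonempty) ∧ 𝒰.PairwiseDisjoint id ∧
      ∀ L : Set X, IsLindelof L → ∃ U ∈ 𝒰, Disjoint U L)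

theorem red {X : Type} [TopologicalSpace X] [T4Space X] (D : Set X)
    (h0 : ∀ x ∈ D, IsOpen {x})
    (h1 : ∀ 𝒰 : Set (Set X), (∀ U ∈ 𝒰, IsOpen U) → (∀ x, ∃ U ∈ 𝒰, x ∈ U) →
      ∃ 𝒱 ⊆ 𝒰, 𝒱.Countable ∧ D ⊆ ⋃₀ 𝒱) (h2 : ∀ L, D ⊆ L → ¬ IsLindelof L) : Goal := by
  have := (isClosed_closure (s := D)).isClosedEmbedding_subtypeVal.normalSpace
  refine ⟨closure D, inferInstance, {}, fun 𝒰 o c => ?_, ?_⟩
  · obtain ⟨𝒱, k, l, m⟩ := h1 {O | IsOpen O ∧ (Subtype.val ⁻¹' O ∈ 𝒰 ∨ O = (closure D)ᶜ)}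
      (fun _ => And.left) fun x => by
        by_cases k : x ∈ closure D
        · obtain ⟨U, l, m⟩ := c.ge (mem_univ (⟨x, k⟩ : closure D))
          obtain ⟨O, p, rfl⟩ := o U l
          exact ⟨O, ⟨p, .inl l⟩, m⟩
        · exact ⟨_, ⟨isClosed_closure.isOpen_compl, .inr rfl⟩, k⟩
    refine ⟨preimage Subtype.val '' 𝒱 ∩ 𝒰, inter_subset_right, (l.image _).mono inter_subset_left,
      Subtype.dense_iff.2 (closure_mono fun x p => ?_)⟩
    obtain ⟨O, q, r⟩ := m p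
    exact ⟨⟨x, subset_closure p⟩, ⟨_, ⟨⟨O, q, rfl⟩, (k q).2.resolve_right
      fun s => (s ▸ r :) (subset_closure p)⟩, r⟩, rfl⟩
  · refine ⟨singleton '' {y | y.1 ∈ D}, forall_mem_image.2 fun y k =>
      ⟨⟨_, h0 _ k, by ext; simp [Subtype.ext_iff]⟩, y, rfl⟩, ?_, fun L k => ?_⟩
    · rintro _ ⟨x, -, rfl⟩ _ ⟨y, -, rfl⟩ k
      exact disjoint_singleton.2 fun l => k (l ▸ rfl)
    · by_contra l
      refine h2 _ (fun x m => ?_) (k.image continuous_subtype_val)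
      by_contra p
      refine l ⟨_, ⟨⟨x, subset_closure m⟩, m, rfl⟩, disjoint_singleton_left.2 fun q => ?_⟩
      exact p ⟨_, q, rfl⟩

theorem red' {X : Type} [TopologicalSpace X] [T4Space X] (D : Set X)
    (h0 : ∀ x ∈ D, IsOpen {x})
    (h1 : ∀ l : Filter X, l.NeBot → CountableInterFilter l → D ∈ l → ∃ x, ClusterPt x l)
    (h2 : ∀ L, D ⊆ L → ¬ IsLindelof L) : Goal := by
  refine red D h0 (fun 𝒰 hU hc => ?_) h2
  by_contra hn
  let l : Filter X := Filter.ofCountableUnion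
    {s | ∃ 𝒱 ⊆ 𝒰, 𝒱.Countable ∧ s ∩ D ⊆ ⋃₀ 𝒱} (by
      intro S hS h
      choose! 𝒱 a1 a2 a3 using h
      refine ⟨⋃ s ∈ S, 𝒱 s, iUnion₂_subset a1, hS.biUnion a2, ?_⟩
      rintro x ⟨⟨s, hs, hx⟩, hxD⟩
      obtain ⟨U, hU, hxU⟩ := a3 s hs ⟨hx, hxD⟩
      exact ⟨U, mem_biUnion hs hU, hxU⟩) (by
      rintro t ⟨𝒱, a1, a2, a3⟩ s hs
      exact ⟨𝒱, a1, a2, (inter_subset_inter_left _ hs).trans a3⟩)
  have hl : ∀ s, s ∈ l ↔ ∃ 𝒱 ⊆ 𝒰, 𝒱.Countable ∧ sᶜ ∩ D ⊆ ⋃₀ 𝒱 := fun s =>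
    Filter.mem_ofCountableUnion
  obtain ⟨x, hx⟩ := h1 l ⟨fun h => hn (by
      simpa using (hl ∅).1 (by rw [h]; exact mem_bot))⟩ inferInstance
    ((hl D).2 ⟨∅, empty_subset _, countable_empty, by simp⟩)
  obtain ⟨U, hU1, hU2⟩ := hc x
  have h3 : Uᶜ ∈ l := (hl _).2 ⟨{U}, by simpa, countable_singleton _, by simp⟩
  obtain ⟨y, hy⟩ := clusterPt_iff_nonempty.1 hx ((hU U hU1).mem_nhds hU2) h3
  exact hy.2 hy.1

def Bd {ι : Type} (u : ι → ℕ → ℕ) : Prop := ∃ g : ℕ → ℕ, ∀ i, u i ≤ᶠ[atTop] g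

theorem bd_countable {ι : Type} [Countable ι] (u : ι → ℕ → ℕ) : Bd u := by
  obtain ⟨e, he⟩ := exists_injective_nat ι
  have hfin : ∀ n, {i | e i ≤ n}.Finite := fun n => (finite_le_nat n).preimage he.injOn
  refine ⟨fun n => (hfin n).toFinset.sup fun i => u i n, fun i => ?_⟩
  filter_upwards [eventually_ge_atTop (e i)] with n hn
  exact Finset.le_sup (f := fun i => u i n) ((hfin n).mem_toFinset.2 hn)

structure Scale (W : Type) [LinearOrder W] (f : W → ℕ → ℕ) : Prop where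
  mono : ∀ a, Monotone (f a)
  inc : ∀ a b, a ≤ b → f a ≤ᶠ[atTop] f b
  unb : ¬ Bd f
  small : ∀ a : W, Cardinal.mk (Iio a) < Cardinal.mk W
  bd : ∀ (ι : Type) (u : ι → ℕ → ℕ), Cardinal.mk ι < Cardinal.mk W → Bd u

theorem exists_scale : ∃ (W : Type) (_ : LinearOrder W) (_ : WellFoundedLT W) (f : W → ℕ → ℕ),
    Scale W f := by
  have hne : ({c : Cardinal.{0} | ∃ (ι : Type) (u : ι → ℕ → ℕ),
      Cardinal.mk ι = c ∧ ¬ Bd u}).Nonempty := by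
    refine ⟨_, ℕ → ℕ, id, rfl, ?_⟩
    rintro ⟨g, hg⟩
    obtain ⟨n, hn⟩ := (hg fun n => g n + 1).exists
    simp at hn
  obtain ⟨κ, ⟨ι, u, hι, hu⟩, hmin⟩ := wellFounded_lt.has_min _ hne
  have hbd : ∀ (ι : Type) (u : ι → ℕ → ℕ), Cardinal.mk ι < κ → Bd u := fun ι u h => by
    by_contra hc
    exact hmin _ ⟨ι, u, rfl, hc⟩ h
  let W := κ.ord.ToType
  have hW : Cardinal.mk W = κ := mk_ord_toType κ
  obtain ⟨e⟩ : Nonempty (W ≃ ι) := Cardinal.eq.1 (hW.trans hι.symm)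
  obtain ⟨f, hf⟩ := Pool.Agent.H.MP_ca288e_gt.exists_rec (T := W) (α := ℕ → ℕ)
    (fun t S a => Monotone a ∧ u (e t) ≤ a ∧ ∀ s ∈ S, s ≤ᶠ[atTop] a) (by
      intro t S hS
      obtain ⟨g, hg⟩ := hbd S Subtype.val (hS.trans_lt (mk_Iio_toType_ord_lt t))
      refine ⟨fun n => (Finset.range (n + 1)).sup fun m => g m + u (e t) m, ?_, ?_, ?_⟩
      · intro n m h
        exact Finset.sup_mono (Finset.range_mono (by omega))
      · intro n
        exact le_trans (Nat.le_add_left _ _) (Finset.le_sup (f := fun m => g m + u (e t) m)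
          (Finset.self_mem_range_succ n))
      · intro s hs
        filter_upwards [hg ⟨s, hs⟩] with n hn
        exact hn.trans (le_trans (Nat.le_add_right _ _)
          (Finset.le_sup (f := fun m => g m + u (e t) m) (Finset.self_mem_range_succ n))))
  refine ⟨W, inferInstance, inferInstance, f, fun a => (hf a).1, fun a b h => ?_, ?_,
    fun a => (mk_Iio_toType_ord_lt a).trans_eq hW.symm, fun ι u h => hbd ι u (h.trans_eq hW)⟩
  · rcases h.eq_or_lt with rfl | h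
    · exact EventuallyLE.rfl
    · exact (hf b).2.2 _ ⟨a, h, rfl⟩
  · rintro ⟨g, hg⟩
    refine hu ⟨g, fun i => ?_⟩
    filter_upwards [hg (e.symm i)] with n hn
    have := (hf (e.symm i)).2.1 n
    rw [e.apply_symm_apply] at this
    exact this.trans hn

variable {W : Type} [LinearOrder W] {f : W → ℕ → ℕ}

theorem Scale.freq (h : Scale W f) (g : ℕ → ℕ) : ∃ a, ∃ᶠ n in atTop, g n < f a n := by
  by_contra hc
  push Not at hc
  exact h.unb ⟨g, fun a => by simpa [EventuallyLE] using hc a⟩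

theorem Scale.bound (h : Scale W f) {ι : Type} (hι : Cardinal.mk ι < Cardinal.mk W) (x : ι → W) :
    ∃ a, ∀ i, x i < a := by
  obtain ⟨g, hg⟩ := h.bd ι (fun i => f (x i)) hι
  obtain ⟨a, ha⟩ := h.freq g
  refine ⟨a, fun i => not_le.1 fun hle => ?_⟩
  obtain ⟨n, h1, h2⟩ := (ha.and_eventually ((h.inc _ _ hle).trans (hg i))).exists
  exact absurd h2 (not_le.2 h1)

theorem Scale.aleph0_lt (h : Scale W f) : ℵ₀ < Cardinal.mk W := by
  by_contra hc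
  haveI : Countable W := mk_le_aleph0_iff.1 (not_lt.1 hc)
  exact h.unb (bd_countable f)

theorem Scale.bound_countable (h : Scale W f) {C : Set W} (hC : C.Countable) :
    ∃ a, ∀ c ∈ C, c < a := by
  obtain ⟨a, ha⟩ := h.bound (ι := C) ((le_aleph0_iff_set_countable.2 hC).trans_lt h.aleph0_lt)
    Subtype.val
  exact ⟨a, fun c hc => ha ⟨c, hc⟩⟩

end

end Pool.Agent.H.MP_eb94e1_gt
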