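import Pool.Agent.H.MP_eb94e1_gt.A

set_option autoImplicit false

namespace Pool.Agent.H.MP_eb94e1_gt

open Set Function Filter Topology

theorem suc {s t : List ℕ} (h : s <:+ t) (k : s ≠ t) : ∃ k, k :: s <:+ t := by
  obtain ⟨u, rfl⟩ := h
  rcases u.eq_nil_or_concat' with rfl | ⟨u, a, rfl⟩
  exacts [(k rfl).elim, ⟨a, u, by simp⟩]

theorem tree {J W : Type} [LinearOrder W] [WellFoundedLT W] (A : W → Set ℕ)
    (a0 : ∀ a : W, (Iic a).Countable) (a1 : ∀ a b, a ≤ b → (A a \ A b).Finite)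
    (a3 : ∀ B : Set ℕ, B.Infinite → ∃ a, (B ∩ A a).Infinite)
    (a4 : ∀ C : Set W, C.Countable → ∃ a, ∀ c ∈ C, c ≤ a)
    (b : J → ℕ → List ℕ) (d : J → ℕ → ℕ) (b0 : ∀ i, b i 0 = [])
    (b1 : ∀ i n, b i (n + 1) = d i n :: b i n)
    (b2 : ∀ N : List ℕ → Set ℕ, (∀ s, (N s).Finite) → {i | ∀ n, d i n ∈ N (b i n)}.Countable)
    (b3 : ∀ a, ¬ {i | ∀ n, d i n ∉ A a}.Countable) : Goal := by
  let c : J ⊕ List ℕ × W → ℕ → List ℕ := Sum.elim b fun p _ => p.1
  let U : List ℕ → Set (J ⊕ List ℕ × W) := fun t => {y | ∃ n, t <:+ c y n}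
  let V : List ℕ → W → Set (J ⊕ List ℕ × W) := fun t β =>
    {y | (∃ k ∈ A β, y ∈ U (k :: t)) ∨ ∃ γ ≤ β, y = .inr (t, γ)}
  let S : J ⊕ List ℕ × W → Set (Set (J ⊕ List ℕ × W)) := Sum.elim (fun i => {{.inl i}}) fun p =>
    insert (V p.1 p.2) ((fun β => (V p.1 β)ᶜ) '' Iio p.2 ∪ range fun k => (U (k :: p.1))ᶜ)
  have c1 : ∀ y n m, n ≤ m → c y n <:+ c y m := fun y n m k => by
    induction k with
    | refl => rfl
    | step _ l => cases y; exacts [l.trans (b1 _ _ ▸ List.suffix_cons _ _ :), l]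
  have u1 : ∀ {s t}, s <:+ t → U t ⊆ U s := fun k y => Exists.imp fun _ => k.trans
  have u2 : ∀ {s t y}, y ∈ U s → y ∈ U t → s <:+ t ∨ t <:+ s := fun ⟨n, k⟩ ⟨m, l⟩ =>
    List.suffix_or_suffix_of_suffix (k.trans (c1 _ _ _ (le_max_left n m)))
      (l.trans (c1 _ _ _ (le_max_right n m)))
  have u3 : ∀ {s t γ}, Sum.inr (s, γ) ∈ U t ↔ t <:+ s := ⟨fun ⟨_, k⟩ => k, fun k => ⟨0, k⟩⟩
  have u4 : ∀ {k s γ}, Sum.inr (s, γ) ∉ U (k :: s) := fun k => by simpa using (u3.1 k).length_le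
  have u5 : ∀ {s y}, y ∈ U s → (∃ k, y ∈ U (k :: s)) ∨ ∃ γ, y = .inr (s, γ) := by
    rintro s (i | ⟨t, γ⟩) ⟨n, k⟩
    · obtain ⟨j, l⟩ := suc (k.trans (c1 _ _ _ n.le_succ)) fun l => by
        have := k.length_le
        simp [l, c, b1] at this
      exact .inl ⟨j, _, l⟩
    · exact (em (s = t)).elim (fun l => .inr ⟨γ, l ▸ rfl⟩) fun l =>
        .inl ((suc k l).imp fun _ => u3.2)
  have v1 : ∀ {s β}, V s β ⊆ U s := by
    rintro s β y (⟨k, -, l⟩ | ⟨γ, -, rfl⟩)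
    exacts [u1 (List.suffix_cons _ _) l, u3.2 List.suffix_rfl]
  have v2 : ∀ {s β γ}, Sum.inr (s, γ) ∈ V s β ↔ γ ≤ β :=
    ⟨fun k => k.elim (fun ⟨_, _, l⟩ => (u4 l).elim) fun ⟨_, l, m⟩ => by cases m; exact l,
      fun k => .inr ⟨_, k, rfl⟩⟩
  have v3 : ∀ {s β k y}, y ∈ U (k :: s) → (y ∈ V s β ↔ k ∈ A β) := fun {s β k y} l =>
    ⟨fun m => m.elim (fun ⟨j, p, q⟩ => by
      obtain rfl : j = k := (u2 q l).elim (fun r => (List.cons.inj (r.eq_of_length rfl)).1)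
        fun r => (List.cons.inj (r.eq_of_length rfl)).1.symm
      exact p) fun ⟨_, _, p⟩ => (u4 (p ▸ l :)).elim, fun m => .inl ⟨k, m, l⟩⟩
  letI := TopologicalSpace.mkOfNhds fun x => generate (S x)
  have op : ∀ O, (∀ s α, Sum.inr (s, α) ∈ O → O ∈ generate (S (.inr (s, α)))) → IsOpen O :=
    fun O k => Sum.rec (fun i l => .superset (.basic rfl) (singleton_subset_iff.2 l)) fun p => k _ _
  have g1 : ∀ s α, V s α ∈ generate (S (.inr (s, α))) := fun s α => .basic (.inl rfl)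
  have g2 : ∀ s α β, β < α → (V s β)ᶜ ∈ generate (S (.inr (s, α))) := fun s α β k =>
    .basic (.inr (.inl ⟨β, k, rfl⟩))
  have g3 : ∀ s α k, (U (k :: s))ᶜ ∈ generate (S (.inr (s, α))) := fun s α k =>
    .basic (.inr (.inr ⟨k, rfl⟩))
  have cU : ∀ t, IsClopen (U t) := fun t => ⟨⟨op _ fun s α k => (em (s <:+ t)).elim
    (fun l => (suc l fun m => k (u3.2 (m ▸ List.suffix_rfl))).elim fun j m =>
      mem_of_superset (g3 s α j) (compl_subset_compl.2 (u1 m))) fun l =>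
      mem_of_superset (g1 s α) fun y m p => (u2 (v1 m) p).elim l fun q => k (u3.2 q)⟩,
    op _ fun s α k => mem_of_superset (g1 s α) (v1.trans (u1 (u3.1 k)))⟩
  have cV : ∀ t β, IsClopen (V t β) := fun t β => ⟨⟨op _ fun s α k => by
      by_cases l : Sum.inr (s, α) ∈ U t
      · rcases u5 l with ⟨j, l⟩ | ⟨γ, l⟩
        · exact mem_of_superset ((cU _).isOpen _ l) fun y m p => k ((v3 l).2 ((v3 m).1 p))
        · cases l
          exact g2 _ _ _ (not_le.1 (mt v2.2 k))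
      · exact mem_of_superset ((cU t).compl.isOpen _ l) (compl_subset_compl.2 v1)⟩,
    op _ fun s α k => by
      rcases k with ⟨j, k, l⟩ | ⟨γ, k, l⟩
      · exact mem_of_superset ((cU _).isOpen _ l) fun y m => .inl ⟨j, k, m⟩
      cases l
      filter_upwards [g1 t α, (biInter_mem (a1 α β k)).2 fun j _ => g3 t α j] with y l m
      exact l.imp (Exists.imp fun j p => ⟨by_contra fun q => mem_iInter₂.1 m j ⟨p.1, q⟩ p.2, p.2⟩)
        (Exists.imp fun γ p => ⟨p.1.trans k, p.2⟩)⟩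
  have cD : ∀ i, IsClopen {Sum.inl i} := fun i => ⟨⟨op _ fun s α _ =>
    (em (∃ k, Sum.inl i ∈ U (k :: s))).elim (fun ⟨k, l⟩ => mem_of_superset (g3 s α k)
      (compl_subset_compl.2 (singleton_subset_iff.2 l))) fun l => mem_of_superset (g1 s α)
        fun y m p => (p ▸ m :).elim (fun ⟨k, _, q⟩ => l ⟨k, q⟩) nofun⟩, op _ nofun⟩
  have cl : ∀ x, ∀ O ∈ S x, IsClopen O ∧ x ∈ O := by
    rintro (i | ⟨s, α⟩) O
    · rintro rfl
      exact ⟨cD i, rfl⟩
    rintro (rfl | ⟨β, k, rfl⟩ | ⟨k, rfl⟩)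
    exacts [⟨cV _ _, v2.2 le_rfl⟩, ⟨(cV _ _).compl, mt v2.1 k.not_ge⟩, ⟨(cU _).compl, u4⟩]
  have nh : ∀ x, 𝓝 x = generate (S x) := fun x => le_antisymm
    (le_generate_iff.2 fun O k => (cl x O k).1.isOpen.mem_nhds (cl x O k).2) fun O k =>
      let ⟨t, l, m, p⟩ := mem_nhds_iff.1 k; mem_of_superset (m x p) l
  have : RegularSpace (J ⊕ List ℕ × W) := .of_lift'_closure_le fun x =>
    (le_generate_iff.2 fun O k => (cl x O k).1.isClosed.closure_eq ▸
      mem_lift' ((cl x O k).1.isOpen.mem_nhds (cl x O k).2)).trans (nh x).ge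
  have : T1Space (J ⊕ List ℕ × W) := ⟨fun x => by
    suffices ⋂₀ S x = {x} from this ▸ isClosed_sInter fun O k => (cl x O k).1.isClosed
    refine subset_antisymm (fun y k => ?_) (singleton_subset_iff.2 fun O k => (cl x O k).2)
    rcases x with i | ⟨s, α⟩
    · exact k _ rfl
    rcases k _ (.inl rfl) with ⟨j, -, l⟩ | ⟨γ, l, rfl⟩
    · exact (k _ (.inr (.inr ⟨j, rfl⟩)) l).elim
    · rw [l.antisymm (not_lt.1 fun m => k _ (.inr (.inl ⟨γ, m, rfl⟩)) (v2.2 le_rfl))]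
      rfl⟩
  have ac : ∀ s (B : Set ℕ), B.Infinite → ∃ γ, ∀ O ∈ 𝓝 (Sum.inr (s, γ)),
      ∃ k ∈ B, U (k :: s) ⊆ O := fun s B k => by
    obtain ⟨γ, l, m⟩ := wellFounded_lt.has_min {α | (B ∩ A α).Infinite} (a3 B k)
    have : NeBot (cofinite ⊓ 𝓟 (B ∩ A γ)) :=
      frequently_mem_iff_neBot.1 (frequently_cofinite_mem_iff_infinite.2 l)
    refine ⟨γ, fun O p => Eventually.exists (f := cofinite ⊓ 𝓟 (B ∩ A γ))
      ((eventually_inf_principal.2 (.of_forall fun _ => And.left)).and ?_)⟩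
    rw [nh] at p
    induction p with
    | basic p =>
      rw [eventually_inf_principal]
      rcases p with rfl | ⟨β, q, rfl⟩ | ⟨j, rfl⟩
      · exact .of_forall fun j q y r => .inl ⟨j, q.2, r⟩
      · exact mem_of_superset (not_infinite.1 (m β · q)).compl_mem_cofinite
          fun j r v y w z => r ⟨v.1, (v3 w).1 z⟩
      · exact (eventually_cofinite_ne j).mono fun i q _ y r v => q
          ((u2 r v).elim (fun r => (List.cons.inj (r.eq_of_length rfl)).1)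
            fun r => (List.cons.inj (r.eq_of_length rfl)).1.symm)
    | univ => exact .of_forall fun _ => subset_univ _
    | superset _ q r => exact r.mono fun _ v => v.trans q
    | inter _ _ q r => exact (q.and r).mono fun _ v => subset_inter v.1 v.2
  have cb : ∀ s (H K : Set (J ⊕ List ℕ × W)), IsClosed H → IsClosed K → Disjoint H K →
      ∃ β, (∀ γ, .inr (s, γ) ∈ H → γ ≤ β) ∨ ∀ γ, .inr (s, γ) ∈ K → γ ≤ β := fun s H K k l m => by
    by_contra! p
    choose f f1 f2 using fun β => (p β).1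
    choose g g1 g2 using fun β => (p β).2
    obtain ⟨a, -⟩ := a3 _ infinite_univ
    let x : ℕ → W := Nat.rec a fun _ y => g (f y)
    obtain ⟨γ, q, r⟩ := wellFounded_lt.has_min {γ | ∀ y ∈ range x, y ≤ γ} (a4 _ (countable_range x))
    have : ∀ y : ℕ → W, (∀ n, x n ≤ y n ∧ y n ≤ x (n + 1)) →
        Tendsto (fun n => Sum.inr (s, y n)) atTop (𝓝 (.inr (s, γ))) := fun y v => by
      rw [nh]
      refine le_generate_iff.2 ?_
      rintro _ (rfl | ⟨β, w, rfl⟩ | ⟨j, rfl⟩)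
      · exact Eventually.of_forall (f := atTop) fun n => v2.2 ((v n).2.trans (q _ ⟨n + 1, rfl⟩))
      · obtain ⟨n, z⟩ : ∃ n, β < x n := by simpa using (r β · w)
        exact (eventually_ge_atTop n).mono fun m e => mt v2.1 (z.trans_le ((monotone_nat_of_le_succ
          (fun n => (v n).1.trans (v n).2) e).trans (v m).1)).not_ge
      · exact Eventually.of_forall (f := atTop) fun n => u4
    exact disjoint_left.1 m (k.mem_of_tendsto (this (fun n => f (x n)) fun n =>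
      ⟨(f2 _).le, (g2 _).le⟩) (.of_forall fun n => f1 _)) (l.mem_of_tendsto (this
        (fun n => x (n + 1)) fun n => ⟨((f2 _).trans (g2 _)).le, le_rfl⟩) (.of_forall fun n => g1 _))
  have sp : ∀ H K : Set (J ⊕ List ℕ × W), IsClosed H → IsClosed K → Disjoint H K →
      HasSeparatingCover H K := fun H K k l m => by
    have : ∀ s, ∃ β C, (IsOpen C ∧ Disjoint (closure C) K) ∧
        ∀ γ, .inr (s, γ) ∈ H → γ ≤ β ∨ .inr (s, γ) ∈ C := fun s => by
      obtain ⟨β, p | p⟩ := cb s H K k l m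
      · exact ⟨β, ∅, by simp, fun γ q => .inl (p γ q)⟩
      have q : {j | (U (j :: s) ∩ (K \ V s β)).Nonempty}.Finite := by_contra fun q => by
        obtain ⟨γ, r⟩ := ac s _ q
        have : Sum.inr (s, γ) ∈ K \ V s β := (l.sdiff (cV s β).isOpen).closure_subset
          (mem_closure_iff_nhds.2 fun O v => (r O v).elim fun j w =>
            w.1.mono (inter_subset_inter_left _ w.2))
        exact this.2 (v2.2 (p γ this.1))
      have r := ((cU s).diff (cV s β)).diff (q.isClopen_biUnion fun j _ => cU (j :: s))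
      refine ⟨β, _, ⟨r.isOpen, r.isClosed.closure_eq.symm ▸ disjoint_left.2 fun y v w => ?_⟩,
        fun γ _ => (le_or_gt γ β).imp_right fun v => ⟨⟨u3.2 List.suffix_rfl, mt v2.1 v.not_ge⟩,
          fun w => (mem_iUnion₂.1 w).elim fun _ z => u4 z.2⟩⟩
      rcases u5 v.1.1 with ⟨j, z⟩ | ⟨γ, rfl⟩
      exacts [v.2 (mem_biUnion ⟨y, z, w, v.1.2⟩ z), v.1.2 (v2.2 (p γ w))]
    choose β C c1 c2 using this
    choose! u u1 u2 u3 using fun x (p : x ∈ H) =>
      exists_mem_nhds_isClosed_subset (l.compl_mem_nhds (disjoint_left.1 m p))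
    obtain ⟨e, he⟩ := (((countable_range C).union (((countable_iUnion fun s => (a0 (β s)).image
      fun γ => Sum.inr (s, γ)).mono (inter_subset_right (s := H))).image
        fun x => interior (u x))).insert (H ∩ range .inl)).exists_eq_range (insert_nonempty _ _)
    refine ⟨e, sUnion_range e ▸ he ▸ fun x p => ?_, forall_mem_range (p := fun C =>
      IsOpen C ∧ Disjoint (closure C) K).1 (he ▸ ?_)⟩
    · rcases x with i | ⟨s, γ⟩
      · exact ⟨_, .inl rfl, p, i, rfl⟩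
      exact (c2 s γ p).elim (fun q => ⟨_, .inr (.inr ⟨_, ⟨p, mem_iUnion.2 ⟨s, γ, q, rfl⟩⟩, rfl⟩),
        mem_interior_iff_mem_nhds.2 (u1 _ p)⟩) fun q => ⟨_, .inr (.inl ⟨s, rfl⟩), q⟩
    rintro _ (rfl | ⟨s, rfl⟩ | ⟨x, p, rfl⟩)
    exacts [⟨op _ fun _ _ p => (nomatch p.2), m.mono_left (closure_minimal inter_subset_left k)⟩, c1 s,
      ⟨isOpen_interior, disjoint_left.2 fun y q =>
        u3 x p.1 (closure_minimal interior_subset (u2 x p.1) q)⟩]
  have : NormalSpace (J ⊕ List ℕ × W) := ⟨fun H K k l m =>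
    hasSeparatingCovers_iff_separatedNhds.1 ⟨sp H K k l m, sp K H l k m.symm⟩⟩
  have : T4Space (J ⊕ List ℕ × W) := {}
  refine red (range (Sum.inl : J → J ⊕ List ℕ × W)) (forall_mem_range.2 fun i => (cD i).isOpen) (fun 𝒰 o k => ?_)
    fun L k l => ?_
  · choose f f1 f2 using k
    choose! g g1 g2 using fun t (p : ∃ O ∈ 𝒰, U t ⊆ O) => p
    have := b2 (fun s => {j | ¬ ∃ O ∈ 𝒰, U (j :: s) ⊆ O}) fun s => by_contra fun q => by
      obtain ⟨γ, r⟩ := ac s _ q
      obtain ⟨j, v, w⟩ := r _ ((o _ (f1 _)).mem_nhds (f2 _))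
      exact v ⟨_, f1 _, w⟩
    refine ⟨g '' {t | ∃ O ∈ 𝒰, U t ⊆ O} ∪ (fun i => f (.inl i)) '' _, union_subset
      (image_subset_iff.2 g1) (image_subset_iff.2 fun i _ => f1 _),
      ((to_countable _).image _).union (this.image _), range_subset_iff.2 fun i => ?_⟩
    by_cases p : ∀ n, ¬ ∃ O ∈ 𝒰, U (d i n :: b i n) ⊆ O
    · exact ⟨_, .inr ⟨i, p, rfl⟩, f2 _⟩
    obtain ⟨n, p⟩ := not_forall_not.1 p
    exact ⟨_, .inl ⟨_, p, rfl⟩, g2 _ p ⟨n + 1, (b1 i n).symm ▸ List.suffix_rfl⟩⟩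
  obtain ⟨a, -⟩ := a3 _ infinite_univ
  have : ∀ s, ∃ α, ∀ γ, .inr (s, γ) ∈ L → γ ≤ α := fun s => by
    obtain ⟨r, p, q⟩ := l.elim_countable_subcover (fun β => V s β ∪ ((U s)ᶜ ∪ ⋃ j, U (j :: s)))
      (fun β => (cV s β).isOpen.union ((cU s).compl.isOpen.union
        (isOpen_iUnion fun j => (cU _).isOpen))) fun y _ => mem_iUnion.2 (by
          by_cases p : y ∈ U s
          · rcases u5 p with p | ⟨γ, rfl⟩
            exacts [⟨a, .inr (.inr (mem_iUnion.2 p))⟩, ⟨γ, .inl (v2.2 le_rfl)⟩]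
          · exact ⟨a, .inr (.inl p)⟩)
    refine (a4 r p).imp fun α v γ w => ?_
    obtain ⟨β, y, z | z | z⟩ := mem_iUnion₂.1 (q w)
    exacts [(v2.1 z).trans (v β y), (z (u3.2 List.suffix_rfl)).elim,
      (mem_iUnion.1 z).elim fun _ z => (u4 z).elim]
  choose α hα using this
  obtain ⟨α', hα'⟩ := a4 _ (countable_range α)
  have z := b3 α'
  obtain ⟨i₀, -⟩ := (Set.not_finite.1 fun e => z e.countable).nonempty
  obtain ⟨r, p, q⟩ := l.elim_countable_subcover (fun i => {.inl i} ∪ ⋃ s, V s α')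
    (fun i => (cD i).isOpen.union (isOpen_iUnion fun s => (cV _ _).isOpen)) (by
      rintro (i | ⟨s, γ⟩) p
      exacts [mem_iUnion.2 ⟨i, .inl rfl⟩,
        mem_iUnion.2 ⟨i₀, .inr (mem_iUnion.2 ⟨s, v2.2 ((hα s γ p).trans (hα' _ ⟨s, rfl⟩))⟩)⟩])
  refine z (p.mono fun i v => ?_)
  obtain ⟨j, w, y | y⟩ := mem_iUnion₂.1 (q (k ⟨i, rfl⟩))
  · cases y
    exact w
  obtain ⟨s, ⟨j, y, n, e⟩ | ⟨_, _, ⟨⟩⟩⟩ := mem_iUnion.1 y
  induction n with
  | zero => simp [c, b0] at e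
  | succ n f =>
    simp only [c, Sum.elim_inl, b1, List.suffix_cons_iff (l₂ := b i n)] at e
    rcases e with e | e
    · cases e
      exact (v n y).elim
    · exact f e

theorem pseudo (S : Set (Set ℕ)) (hS : S.Countable) (h1 : ∀ s ∈ S, s.Infinite)
    (h2 : ∀ s ∈ S, ∀ t ∈ S, (s \ t).Finite ∨ (t \ s).Finite) (g : ℕ → ℕ) :
    ∃ a : Set ℕ, a.Infinite ∧ (∀ s ∈ S, (a \ s).Finite) ∧ ∀ x ∈ a, ∀ y ∈ a, x < y → g x < y := by
  classical
  have hfin : ∀ F : Finset (Set ℕ), (F : Set (Set ℕ)) ⊆ S →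
      ∃ s, s.Infinite ∧ (s = univ ∨ s ∈ S) ∧ ∀ t ∈ F, (s \ t).Finite := by
    intro F
    induction F using Finset.induction_on with
    | empty => exact fun _ => ⟨univ, infinite_univ, Or.inl rfl, by simp⟩
    | insert t F _ ih =>
      intro hF
      rw [Finset.coe_insert, insert_subset_iff] at hF
      obtain ⟨s, hs1, hs2, hs3⟩ := ih hF.2
      have key : (s \ t).Finite ∨ (t \ s).Finite := by
        rcases hs2 with rfl | hs2
        · exact Or.inr (by simp)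
        · exact h2 s hs2 t hF.1
      rcases key with h | h
      · exact ⟨s, hs1, hs2, fun u hu => (Finset.mem_insert.1 hu).elim (fun e => e ▸ h) (hs3 u)⟩
      · refine ⟨t, h1 t hF.1, Or.inr hF.1, fun u hu => ?_⟩
        rcases Finset.mem_insert.1 hu with rfl | hu
        · simp
        · refine (h.union (hs3 u hu)).subset fun x hx => ?_
          by_cases hxs : x ∈ s
          exacts [Or.inr ⟨hxs, hx.2⟩, Or.inl ⟨hx.1, hxs⟩]
  obtain ⟨e, he⟩ := (hS.insert univ).exists_eq_range (insert_nonempty _ _)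
  have step : ∀ n m : ℕ, ∃ y, m < y ∧ ∀ i < n, y ∈ e i := by
    intro n m
    obtain ⟨s, hs1, -, hs3⟩ := hfin (((Finset.range n).image e).erase univ) (by
      intro t ht
      rw [Finset.mem_coe, Finset.mem_erase, Finset.mem_image] at ht
      obtain ⟨h3, i, -, rfl⟩ := ht
      exact (he.ge ⟨i, rfl⟩).resolve_left h3)
    obtain ⟨y, hy, hym⟩ := (hs1.diff ((((Finset.range n).image e).erase univ).finite_toSet.biUnion
      hs3)).exists_gt m
    refine ⟨y, hym, fun i hi => ?_⟩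
    by_cases h3 : e i = univ
    · rw [h3]; trivial
    · by_contra h4
      exact hy.2 (mem_biUnion (x := e i) (by simp [h3]; exact ⟨i, hi, rfl⟩) ⟨hy.1, h4⟩)
  choose y hy1 hy2 using step
  let x : ℕ → ℕ := fun n => Nat.rec 0 (fun n z => y n (z + g z)) n
  have hx : ∀ n, x (n + 1) = y n (x n + g (x n)) := fun _ => rfl
  have hm : StrictMono x := strictMono_nat_of_lt_succ fun n => by
    rw [hx]; exact (Nat.le_add_right _ _).trans_lt (hy1 _ _)
  refine ⟨range x, infinite_range_of_injective hm.injective, fun s hs => ?_, ?_⟩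
  · obtain ⟨i, rfl⟩ : s ∈ range e := he.le (Or.inr hs)
    refine ((finite_le_nat (i + 1)).image x).subset ?_
    rintro _ ⟨⟨n, rfl⟩, hn⟩
    refine ⟨n, (not_lt (a := i + 1) (b := n)).1 fun h => hn ?_, rfl⟩
    obtain ⟨n, rfl⟩ : ∃ m, n = m + 1 := ⟨n - 1, by omega⟩
    rw [hx]; exact hy2 _ _ i (by omega)
  · rintro _ ⟨n, rfl⟩ _ ⟨m, rfl⟩ h
    have h3 : x (n + 1) ≤ x m := hm.monotone (hm.lt_iff_lt.1 h)
    rw [hx] at h3
    exact ((Nat.le_add_left _ _).trans_lt (hy1 _ _)).trans_le h3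

theorem caseA {W : Type} [LinearOrder W] [WellFoundedLT W] {f : W → ℕ → ℕ} (h : Scale W f)
    (a0 : ∀ a : W, (Iic a).Countable) : Goal := by
  classical
  obtain ⟨B, hB⟩ := Pool.Agent.H.MP_ca288e_gt.exists_rec (T := W) (α := Set ℕ)
    (fun t S a => (∀ s ∈ S, s.Infinite) →
      (∀ s ∈ S, ∀ t ∈ S, (s \ t).Finite ∨ (t \ s).Finite) →
      a.Infinite ∧ (∀ s ∈ S, (a \ s).Finite) ∧ ∀ x ∈ a, ∀ y ∈ a, x < y → f t x < y) (by
      intro t S hS
      have hS' : S.Countable := Cardinal.le_aleph0_iff_set_countable.1 (hS.trans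
        (Cardinal.le_aleph0_iff_set_countable.2 ((a0 t).mono Iio_subset_Iic_self)))
      by_cases h1 : (∀ s ∈ S, s.Infinite) ∧ ∀ s ∈ S, ∀ t ∈ S, (s \ t).Finite ∨ (t \ s).Finite
      · obtain ⟨a, ha⟩ := pseudo S hS' h1.1 h1.2 (f t)
        exact ⟨a, fun _ _ => ha⟩
      · exact ⟨∅, fun h2 h3 => absurd ⟨h2, h3⟩ h1⟩)
  have hB' : ∀ t, (B t).Infinite ∧ (∀ s ∈ B '' Iio t, (B t \ s).Finite) ∧
      ∀ x ∈ B t, ∀ y ∈ B t, x < y → f t x < y := by
    intro t
    induction t using WellFoundedLT.induction with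
    | ind t ih =>
      refine hB t ?_ ?_
      · rintro _ ⟨s, hs, rfl⟩
        exact (ih s hs).1
      · rintro _ ⟨s, hs, rfl⟩ _ ⟨u, hu, rfl⟩
        rcases lt_trichotomy s u with h | rfl | h
        · exact Or.inr ((ih u hu).2.1 _ ⟨s, h, rfl⟩)
        · simp
        · exact Or.inl ((ih s hs).2.1 _ ⟨u, h, rfl⟩)
  choose d hd1 hd2 using fun (i : W × W) n => (hB' i.1).1.exists_gt (f i.1 n + f i.2 n)
  let b : W × W → ℕ → List ℕ := fun i n => Nat.rec [] (fun n s => d i n :: s) n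
  refine tree (fun a => (B a)ᶜ) a0 (fun a b hab => ?_) (fun C hC => ?_) (fun C hC => ?_) b d
    (fun _ => rfl) (fun _ _ => rfl) (fun N hN => ?_) fun a hc => ?_
  · rcases hab.eq_or_lt with rfl | hab
    · simp
    · refine ((hB' b).2.1 _ ⟨a, hab, rfl⟩).subset fun x hx => ⟨not_not.1 hx.2, hx.1⟩
  · by_contra hc
    push Not at hc
    choose nx hn1 hn2 using hC.exists_gt
    obtain ⟨a, ha⟩ := h.freq fun n => nx (nx n)
    obtain ⟨m, hm⟩ := (hc a).bddAbove
    obtain ⟨n, h1, h2⟩ := (ha.and_eventually (eventually_ge_atTop m)).exists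
    have h3 : ∀ k, m ≤ k → nx k ∈ B a := fun k hk => by
      by_contra h4
      exact absurd (hm ⟨hn1 k, h4⟩) (not_le.2 (hk.trans_lt (hn2 k)))
    have h4 := (hB' a).2.2 _ (h3 n h2) _ (h3 _ (h2.trans (hn2 n).le)) (hn2 _)
    have h5 := h.mono a (hn2 n).le
    omega
  · obtain ⟨a, ha⟩ := h.bound_countable hC
    exact ⟨a, fun c hc => (ha c hc).le⟩
  · let T : ℕ → Set (List ℕ) := fun n => Nat.rec {[]}
      (fun _ S => ⋃ s ∈ S, (fun k => k :: s) '' N s) n
    have hT : ∀ n, (T n).Finite := fun n => by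
      induction n with
      | zero => exact finite_singleton _
      | succ n ih => exact ih.biUnion fun s _ => (hN s).image _
    choose g hg using fun n => ((hT n).biUnion fun s _ => hN s).bddAbove
    obtain ⟨a, ha⟩ := h.freq g
    refine ((a0 a).prod (a0 a)).mono fun i hi => ?_
    have h1 : ∀ n, b i n ∈ T n := fun n => by
      induction n with
      | zero => rfl
      | succ n ih => exact mem_biUnion ih ⟨_, hi n, rfl⟩
    have h2 : ∀ n, d i n ≤ g n := fun n => hg n (mem_biUnion (h1 n) (hi n))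
    have h3 : ∀ c, (∀ n, f c n ≤ d i n) → c ≤ a := fun c hc => not_lt.1 fun hlt => by
      obtain ⟨n, h4, h5⟩ := (ha.and_eventually (h.inc _ _ hlt.le)).exists
      exact absurd (h5.trans ((hc n).trans (h2 n))) (not_le.2 h4)
    exact ⟨h3 _ fun n => (Nat.le_add_right _ _).trans (hd2 i n).le,
      h3 _ fun n => (Nat.le_add_left _ _).trans (hd2 i n).le⟩
  · obtain ⟨c, hc'⟩ := h.bound_countable (hc.image Prod.snd)
    exact lt_irrefl c (hc' c ⟨(a, c), fun n hn => hn (hd1 (a, c) n), rfl⟩)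

end Pool.Agent.H.MP_eb94e1_gt
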