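import Pool.Agent.H.MP_eb94e1_gt.A

set_option autoImplicit false

namespace Pool.Agent.H.MP_eb94e1_gt

open Set Function Filter Topology Cardinal

noncomputable section

abbrev J : Type := (aleph 1).ord.ToType

theorem cI (a : J) : (Iic a).Countable := by
  rw [← Iio_union_right]
  refine Countable.union ?_ (countable_singleton a)
  rw [← le_aleph0_iff_set_countable, ← Order.lt_succ_iff, succ_aleph0]
  exact mk_Iio_toType_ord_lt a

instance : Uncountable J := by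
  rw [← aleph0_lt_mk_iff, mk_ord_toType]
  exact aleph0_lt_aleph_one

def inj (β : J) : J → ℕ := (Set.countable_iff_exists_injOn.1 (cI β)).choose

theorem inj_on (β : J) : InjOn (inj β) (Iic β) :=
  (Set.countable_iff_exists_injOn.1 (cI β)).choose_spec

theorem exists_neBot {P α : Type} {l : Filter P} [l.NeBot] [CountableInterFilter l] {S : Set α}
    (hS : S.Countable) (A : α → Set P) (h : ⋃ a ∈ S, A a ∈ l) :
    ∃ a ∈ S, (l ⊓ 𝓟 (A a)).NeBot := by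
  by_contra hc
  push Not at hc
  have h1 : ⋂ a ∈ S, (A a)ᶜ ∈ l :=
    (countable_bInter_mem hS).2 fun a ha => inf_principal_eq_bot.1 (hc a ha)
  obtain ⟨x, hx1, hx2⟩ := Filter.nonempty_of_mem (inter_mem h h1)
  obtain ⟨a, ha, hx⟩ := mem_iUnion₂.1 hx1
  exact mem_iInter₂.1 hx2 a ha hx

abbrev Z (W : Type) : Type := (ℕ × ℕ) ⊕ WithTop W

variable {W : Type} [LinearOrder W]

def V (f : W → ℕ → ℕ) (α : W) : Set (Z W) :=
  {z | Sum.elim (fun q : ℕ × ℕ => q.2 ≤ f α q.1) (fun γ : WithTop W => γ ≤ α) z}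

def Col (W : Type) (m : ℕ) : Set (Z W) := {z | ∃ q : ℕ × ℕ, z = .inl q ∧ q.1 < m}

theorem Col_mono {m n : ℕ} (h : m ≤ n) : Col W m ⊆ Col W n :=
  fun _ ⟨q, h1, h2⟩ => ⟨q, h1, h2.trans_le h⟩

variable {f : W → ℕ → ℕ}

theorem V_sub (h : Scale W f) {α β : W} (hαβ : α ≤ β) : ∃ m, V f α ⊆ V f β ∪ Col W m := by
  obtain ⟨m, hm⟩ := eventually_atTop.1 (h.inc _ _ hαβ)
  refine ⟨m, ?_⟩
  rintro (q | γ) hz
  · by_cases hq : q.1 < m
    · exact Or.inr ⟨q, rfl, hq⟩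
    · exact Or.inl (le_trans (show q.2 ≤ f α q.1 from hz) (hm _ (not_lt.1 hq)))
  · exact Or.inl (le_trans (show γ ≤ (α : WithTop W) from hz) (WithTop.coe_le_coe.2 hαβ))

theorem thin1 (h : Scale W f) {M : Set ℕ} (hM : M.Infinite) (z : ℕ → Z W)
    (hz : ∀ m, z m ≠ .inr ⊤ ∧ z m ∉ Col W m) : ∃ β, {m ∈ M | z m ∈ V f β}.Infinite := by
  choose nx hn1 hn2 using hM.exists_gt
  obtain ⟨a, ha⟩ := h.freq fun n => Sum.elim Prod.snd (fun _ => 0) (z (nx n))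
  obtain ⟨a', ha'⟩ := h.bound_countable (C := {γ : W | ∃ m, z m = .inr ↑γ}) (by
    refine (countable_range z).preimage_of_injOn (f := fun γ : W => (Sum.inr ↑γ : Z W)) ?_
    intro x _ y _ hxy
    exact WithTop.coe_injective (Sum.inr.inj hxy))
  refine ⟨max a a', infinite_of_forall_exists_gt fun n0 => ?_⟩
  obtain ⟨n, h1, h2, h3⟩ := (ha.and_eventually ((h.inc _ _ (le_max_left a a')).and
    (eventually_ge_atTop n0))).exists
  refine ⟨nx n, ⟨hn1 n, ?_⟩, h3.trans_lt (hn2 n)⟩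
  rcases hq : z (nx n) with q | γ
  · rw [hq] at h1
    have h4 : nx n ≤ q.1 := not_lt.1 fun h5 => (hz (nx n)).2 ⟨q, hq, h5⟩
    exact (h1.le.trans h2).trans (h.mono _ ((hn2 n).le.trans h4))
  · have h6 : γ ≠ ⊤ := fun h5 => (hz (nx n)).1 (h5 ▸ hq)
    obtain ⟨γ, rfl⟩ := WithTop.ne_top_iff_exists.1 h6
    exact WithTop.coe_le_coe.2 ((ha' γ ⟨_, hq⟩).le.trans (le_max_right _ _))

theorem thin (h : Scale W f) [Inhabited W] (τ : Finset J) (v : ℕ → J → Z W)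
    (hv : ∀ m, ∀ ξ ∈ τ, v m ξ ≠ .inr ⊤ ∧ v m ξ ∉ Col W m) :
    ∃ M : Set ℕ, M.Infinite ∧ ∃ β : J → W, ∀ ξ ∈ τ, ∀ m ∈ M, v m ξ ∈ V f (β ξ) := by
  classical
  induction τ using Finset.induction_on with
  | empty => exact ⟨univ, infinite_univ, default, by simp⟩
  | insert ξ τ _ ih =>
    obtain ⟨M, hM, β, hβ⟩ := ih fun m η hη => hv m η (Finset.mem_insert_of_mem hη)
    obtain ⟨a, ha⟩ := thin1 h hM (fun m => v m ξ) fun m => hv m ξ (Finset.mem_insert_self _ _)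
    refine ⟨_, ha, update β ξ a, fun η hη m hm => ?_⟩
    by_cases h1 : η = ξ
    · rw [h1, update_self]; exact hm.2
    · rw [update_of_ne h1]
      exact hβ η ((Finset.mem_insert.1 hη).resolve_left h1) m hm.1

inductive Pt (f : W → ℕ → ℕ) : Type
  | lo (β : J) (g : ℕ → ℕ) (ε : Bool) : Pt f
  | hi (y : J → Z W) : Pt f

variable [Inhabited W]

def pr : Pt f → J → Z W
  | .lo β g _ => fun ξ => if ξ < β then .inl (inj β ξ, g (inj β ξ)) else .inr ↑(default : W)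
  | .hi y => y

def Lev (f : W → ℕ → ℕ) (β : J) : Set (Pt f) := {p | ∃ γ g ε, p = .lo γ g ε ∧ γ ≤ β}

omit [LinearOrder W] [Inhabited W] in
theorem lo_lev {β γ : J} {g : ℕ → ℕ} {ε : Bool} : Pt.lo β g ε ∈ Lev f γ ↔ β ≤ γ :=
  ⟨fun ⟨_, _, _, h1, h2⟩ => by cases h1; exact h2, fun h => ⟨_, _, _, rfl, h⟩⟩

omit [LinearOrder W] [Inhabited W] in
theorem lo_e {β γ : J} {g : ℕ → ℕ} {ε : Bool} {n k : ℕ} :
    Pt.lo β g ε ∈ {p : Pt f | ∃ g ε, p = .lo γ g ε ∧ g n = k} ↔ β = γ ∧ g n = k :=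
  ⟨fun ⟨_, _, h1, h2⟩ => by cases h1; exact ⟨rfl, h2⟩, fun ⟨h1, h2⟩ => ⟨_, _, by rw [h1], h2⟩⟩

inductive Sub : Set (Pt f) → Prop
  | v (ξ : J) (α : W) : Sub {p | pr p ξ ∈ V f α}
  | s (ξ : J) (q : ℕ × ℕ) : Sub {p | pr p ξ = .inl q}
  | c (ξ : J) (m : ℕ) : Sub {p | pr p ξ ∈ Col W m}
  | l (β : J) : Sub (Lev f β)
  | e (β : J) (n k : ℕ) : Sub {p | ∃ g ε, p = .lo β g ε ∧ g n = k}
  | i (β : J) (g : ℕ → ℕ) : Sub {.lo β g true}

open Classical in
def em (p : Pt f) : {s : Set (Pt f) // Sub s} → Bool := fun s => decide (p ∈ s.1)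

instance : TopologicalSpace (Pt f) := TopologicalSpace.induced em inferInstance

theorem tendsto_iff {α : Type} {l : Filter α} {φ : α → Pt f} {p : Pt f} :
    Tendsto φ l (𝓝 p) ↔ ∀ s, Sub s → ∀ᶠ a in l, (φ a ∈ s ↔ p ∈ s) := by
  rw [(show IsInducing (em (f := f)) from ⟨rfl⟩).tendsto_nhds_iff, tendsto_pi_nhds]
  simp only [nhds_discrete, tendsto_pure, comp_apply, em, decide_eq_decide, Subtype.forall]

theorem Sub.ev {s : Set (Pt f)} (hs : Sub s) (p : Pt f) : ∀ᶠ q in 𝓝 p, (q ∈ s ↔ p ∈ s) :=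
  tendsto_iff.1 tendsto_id s hs

theorem Sub.isOpen {s : Set (Pt f)} (hs : Sub s) : IsOpen s :=
  isOpen_iff_mem_nhds.2 fun p hp => (hs.ev p).mono fun _ h => h.2 hp

theorem em_inj : Injective (em (f := f)) := by
  intro p q hpq
  have H : ∀ s, Sub s → (p ∈ s ↔ q ∈ s) := fun s hs => by
    simpa [em] using congrFun hpq ⟨s, hs⟩
  clear hpq
  rcases p with ⟨β, g, ε⟩ | y <;> rcases q with ⟨β', g', ε'⟩ | y'
  · have h1 : ∀ n, β' = β ∧ g' n = g n := fun n => by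
      obtain ⟨g1, ε1, h1, h2⟩ := (H _ (.e β n (g n))).1 ⟨g, ε, rfl, rfl⟩
      cases h1; exact ⟨rfl, h2⟩
    obtain rfl := (h1 0).1
    obtain rfl : g' = g := funext fun n => (h1 n).2
    have := H _ (.i β' g')
    cases ε <;> cases ε' <;> simp_all
  · obtain ⟨_, _, _, h, -⟩ := (H _ (.l β)).1 ⟨β, g, ε, rfl, le_rfl⟩
    cases h
  · obtain ⟨_, _, _, h, -⟩ := (H _ (.l β')).2 ⟨β', g', ε', rfl, le_rfl⟩
    cases h
  · congr 1
    funext ξ
    have h1 := fun q => H _ (.s ξ q)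
    have h2 := fun α => H _ (.v ξ α)
    simp only [mem_ofPred_eq, pr] at h1 h2
    rcases h3 : y ξ with q | γ
    · exact ((h1 q).1 h3).symm
    rcases h4 : y' ξ with q | γ'
    · exact h3.symm.trans ((h1 q).2 h4)
    simp only [h3, h4, V, mem_ofPred_eq, Sum.elim_inr] at h2
    congr 1
    refine eq_of_forall_ge_iff fun c => ?_
    induction c with
    | top => simp
    | coe c => exact h2 c

instance : T3Space (Pt f) := (show IsEmbedding (em (f := f)) from ⟨⟨rfl⟩, em_inj⟩).t3Space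

def Xt (f : W → ℕ → ℕ) : Set (Pt f) := {p | ∀ ξ η q q', pr p ξ = .inl q → pr p η = .inl q' →
  q.1 = q'.1 → ξ = η}

def X (f : W → ℕ → ℕ) : Set (Pt f) := {p | p ∈ Xt f ∧ ∀ ξ, pr p ξ ≠ .inr ⊤}

theorem lo_mem (β : J) (g : ℕ → ℕ) (ε : Bool) : Pt.lo β g ε ∈ X f := by
  refine ⟨fun ξ η q q' h1 h2 h3 => ?_, fun ξ => ?_⟩
  · simp only [pr] at h1 h2
    split_ifs at h1 h2 with h4 h5
    cases h1; cases h2
    exact inj_on β h4.le h5.le h3
  · simp only [pr]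
    split_ifs <;> simp

theorem exists_ht : ∃ ht : Pt f → ℕ → ℕ, (∀ β g ε, ht (.lo β g ε) = g) ∧
    ∀ p ∈ Xt f, ∀ ξ q, pr p ξ = .inl q → q.2 = ht p q.1 := by
  have : ∀ y : J → Z W, ∃ g : ℕ → ℕ, Pt.hi y ∈ Xt f → ∀ ξ q, y ξ = .inl q → q.2 = g q.1 := by
    intro y
    have h1 : ∀ n, ∃ k, Pt.hi y ∈ Xt f → ∀ ξ q, y ξ = .inl q → q.1 = n → q.2 = k := by
      intro n
      by_cases h : ∃ ξ q, y ξ = .inl q ∧ q.1 = n
      · obtain ⟨ξ, q, h1, h2⟩ := h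
        refine ⟨q.2, fun hy η q' h3 h4 => ?_⟩
        obtain rfl := hy η ξ q' q h3 h1 (h4.trans h2.symm)
        rw [Sum.inl.inj (h3.symm.trans h1)]
      · exact ⟨0, fun _ ξ q h1 h2 => absurd ⟨ξ, q, h1, h2⟩ h⟩
    choose g hg using h1
    exact ⟨g, fun hy ξ q h => hg _ hy ξ q h rfl⟩
  choose g hg using this
  refine ⟨fun p => match p with
    | .lo _ g _ => g
    | .hi y => g y, fun _ _ _ => rfl, ?_⟩
  rintro (⟨β, g', ε⟩ | y) hp ξ q h
  · simp only [pr] at h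
    split_ifs at h
    cases h; rfl
  · exact hg y hp ξ q h

theorem exists_lim [WellFoundedLT W] (h : Scale W f) (𝒱 : Ultrafilter (Z W))
    (h1 : ∀ m, Col W m ∉ 𝒱) : ∃ γ : WithTop W, ∀ α, V f α ∈ 𝒱 ↔ γ ≤ α := by
  by_cases h2 : ∃ α, V f α ∈ 𝒱
  · obtain ⟨γ, hγ, hm⟩ := wellFounded_lt.has_min {α | V f α ∈ 𝒱} h2
    refine ⟨γ, fun α => ⟨fun h3 => WithTop.coe_le_coe.2 (not_lt.1 (hm α h3)), fun h3 => ?_⟩⟩
    obtain ⟨m, hm'⟩ := V_sub h (WithTop.coe_le_coe.1 h3)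
    exact (Ultrafilter.union_mem_iff.1 (mem_of_superset hγ hm')).resolve_right (h1 m)
  · exact ⟨⊤, fun α => ⟨fun h3 => absurd ⟨α, h3⟩ h2, fun h3 => absurd h3 (by simp)⟩⟩

theorem ult_iff {P : Type} (𝒰 : Ultrafilter P) {s : Set P} {c : Prop} (h : s ∈ 𝒰 ↔ c) :
    ∀ᶠ p in (𝒰 : Filter P), (p ∈ s ↔ c) := by
  by_cases hc : c
  · filter_upwards [h.2 hc] with p hp using iff_of_true hp hc
  · filter_upwards [Ultrafilter.compl_mem_iff_notMem.2 (mt h.1 hc)] with p hp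
      using iff_of_false hp hc

theorem lind_Xt [WellFoundedLT W] (h : Scale W f) : IsLindelof (Xt f) := by
  intro l _ _ hl
  obtain ⟨ht, ht1, ht2⟩ := exists_ht (f := f)
  have key : ∀ l : Filter (Pt f), l.NeBot → CountableInterFilter l →
      ∃ g, (l ⊓ comap ht (𝓝 g)).NeBot := by
    intro l _ _
    obtain ⟨g, -, hg⟩ := isLindelof_univ (f := map ht l) (le_principal_iff.2 univ_mem)
    exact ⟨g, neBot_inf_comap_iff_map.2 (by rw [inf_comm]; exact hg)⟩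
  have ev : ∀ (g : ℕ → ℕ) n, ∀ᶠ p in comap ht (𝓝 g), ht p n = g n := fun g n => by
    have := ((continuous_apply n).tendsto g).comp (tendsto_comap (f := ht))
    simpa using this
  by_cases h1 : ∃ β, (l ⊓ 𝓟 (Lev f β)).NeBot
  · obtain ⟨β0, h1⟩ := h1
    obtain ⟨β, -, h2⟩ := exists_neBot (l := l ⊓ 𝓟 (Lev f β0)) (cI β0)
      (fun β => {p | ∃ g ε, p = .lo β g ε}) (mem_inf_of_right (by
        rintro _ ⟨γ, g, ε, rfl, h⟩
        exact mem_biUnion (x := γ) h ⟨g, ε, rfl⟩))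
    set l' := (l ⊓ 𝓟 (Lev f β0)) ⊓ 𝓟 {p | ∃ g ε, p = .lo β g ε} with hl'
    have hle : l' ≤ l := inf_le_left.trans inf_le_left
    by_cases h3 : ∃ g, (l' ⊓ 𝓟 {.lo β g true}).NeBot
    · obtain ⟨g, h3⟩ := h3
      refine ⟨_, (lo_mem β g true).1, h3.mono (le_inf (inf_le_right.trans ?_)
        (inf_le_left.trans hle))⟩
      rw [principal_singleton]; exact pure_le_nhds _
    push Not at h3
    obtain ⟨g, hg⟩ := key l' h2 inferInstance
    refine ⟨_, (lo_mem β g false).1, hg.mono (le_inf ?_ (inf_le_left.trans hle))⟩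
    have e1 : ∀ n, ∀ᶠ p in l' ⊓ comap ht (𝓝 g), ∃ g' ε, p = .lo β g' ε ∧ g' n = g n := by
      intro n
      filter_upwards [mem_inf_of_left (mem_inf_of_right (mem_principal_self _)),
        mem_inf_of_right (ev g n)] with p ⟨g', ε, hp⟩ h4
      exact ⟨g', ε, hp, by rwa [hp, ht1] at h4⟩
    have e2 : ∀ ξ, ∀ᶠ p in l' ⊓ comap ht (𝓝 g), pr p ξ = pr (.lo β g false : Pt f) ξ := by
      intro ξ
      filter_upwards [e1 (inj β ξ)] with p ⟨g', ε, hp, h4⟩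
      simp only [hp, pr, h4]
    refine tendsto_id'.1 (tendsto_iff.2 fun s hs => ?_)
    cases hs with
    | v ξ α => exact (e2 ξ).mono fun p hp => by simp only [mem_ofPred_eq, id, hp]
    | s ξ q => exact (e2 ξ).mono fun p hp => by simp only [mem_ofPred_eq, id, hp]
    | c ξ m => exact (e2 ξ).mono fun p hp => by simp only [mem_ofPred_eq, id, hp]
    | l γ => exact (e1 0).mono fun p ⟨g', ε, hp, _⟩ => by simp only [hp, id, lo_lev]
    | e γ n k => exact (e1 n).mono fun p ⟨g', ε, hp, h4⟩ => by simp only [hp, id, lo_e, h4]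
    | i γ g' =>
      filter_upwards [e1 0, mem_inf_of_left (inf_principal_eq_bot.1 (h3 g'))] with p
        ⟨g1, ε, hp, _⟩ h5
      refine iff_of_false (fun h6 => h5 ?_) (by simp)
      rw [hp] at h6 ⊢
      cases h6; rfl
  push Not at h1
  obtain ⟨g, hg⟩ := key l inferInstance inferInstance
  let 𝒰 := Ultrafilter.of (l ⊓ comap ht (𝓝 g))
  have u1 : (𝒰 : Filter (Pt f)) ≤ l := (Ultrafilter.of_le _).trans inf_le_left
  have u2 : (𝒰 : Filter (Pt f)) ≤ comap ht (𝓝 g) := (Ultrafilter.of_le _).trans inf_le_right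
  have u3 : ∀ᶠ p in (𝒰 : Filter (Pt f)), p ∈ Xt f := u1 (le_principal_iff.1 hl)
  have hz : ∀ ξ, ∃ z : Z W, (∀ α, ∀ᶠ p in (𝒰 : Filter (Pt f)), (pr p ξ ∈ V f α ↔ z ∈ V f α)) ∧
      (∀ q, ∀ᶠ p in (𝒰 : Filter (Pt f)), (pr p ξ = .inl q ↔ z = .inl q)) ∧
      ∀ m, ∀ᶠ p in (𝒰 : Filter (Pt f)), (pr p ξ ∈ Col W m ↔ z ∈ Col W m) := by
    intro ξ
    by_cases h2 : ∃ m, Col W m ∈ 𝒰.map (pr · ξ)
    · obtain ⟨m, hm⟩ := h2
      have h3 : ⋃ n ∈ Iio m, {p : Pt f | pr p ξ = .inl (n, g n)} ∈ 𝒰 := by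
        filter_upwards [hm, u3, u2 ((eventually_all_finite (finite_Iio m)).2 fun n _ => ev g n)]
          with p ⟨q, h4, h5⟩ h6 h7
        refine mem_biUnion (x := q.1) h5 ?_
        rw [mem_ofPred_eq, ← h7 _ h5, ← ht2 p h6 ξ q h4]; exact h4
      obtain ⟨n, -, hn⟩ := (Ultrafilter.finite_biUnion_mem_iff (finite_Iio m)).1 h3
      refine ⟨.inl (n, g n), fun α => ?_, fun q => ?_, fun m => ?_⟩ <;>
        filter_upwards [hn] with p hp <;> rw [hp]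
    · push Not at h2
      obtain ⟨γ, hγ⟩ := exists_lim h _ h2
      refine ⟨.inr γ, fun α => ult_iff 𝒰 (s := {p | pr p ξ ∈ V f α}) (hγ α), fun q => ?_,
        fun m => ?_⟩
      · filter_upwards [Ultrafilter.compl_mem_iff_notMem.2 (h2 (q.1 + 1))] with p hp
        exact iff_of_false (fun h3 => hp ⟨q, h3, Nat.lt_succ_self _⟩) (by simp)
      · filter_upwards [Ultrafilter.compl_mem_iff_notMem.2 (h2 m)] with p hp
        exact iff_of_false hp (by simp [Col])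
  choose y y1 y2 y3 using hz
  have hL : ∀ β, ∀ᶠ p in (𝒰 : Filter (Pt f)), p ∉ Lev f β := fun β =>
    u1 (inf_principal_eq_bot.1 (h1 β))
  refine ⟨.hi y, fun ξ η q q' a1 a2 a3 => ?_, (𝒰.neBot).mono (le_inf ?_ u1)⟩
  · obtain ⟨p, b1, b2, b3⟩ := ((y2 ξ q).and ((y2 η q').and u3)).exists
    exact b3 ξ η q q' (b1.2 a1) (b2.2 a2) a3
  · refine tendsto_id'.1 (tendsto_iff.2 fun s hs => ?_)
    cases hs with
    | v ξ α => exact y1 ξ α
    | s ξ q => exact y2 ξ q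
    | c ξ m => exact y3 ξ m
    | l γ => exact (hL γ).mono fun p hp => iff_of_false hp (by simp [Lev])
    | e γ n k => exact (hL γ).mono fun p hp =>
        iff_of_false (fun ⟨g', ε, h2, _⟩ => hp ⟨γ, g', ε, h2, le_rfl⟩) (by simp)
    | i γ g' => exact (hL γ).mono fun p hp =>
        iff_of_false (fun h2 => hp ⟨γ, g', true, h2, le_rfl⟩) (by simp)

end

end Pool.Agent.H.MP_eb94e1_gt
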