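import Pool.Agent.H.MP_eb94e1_gt.B
import Pool.Agent.H.MP_eb94e1_gt.C

set_option autoImplicit false

namespace Pool.Agent.H.MP_eb94e1_gt

open Set Function Filter Topology Cardinal

noncomputable section

variable {W : Type} [LinearOrder W] {f : W → ℕ → ℕ} [Inhabited W]

def Nb (f : W → ℕ → ℕ) (y : J → Z W) (τ : Finset J) (σ : Finset W) (m : ℕ) : Set (Pt f) :=
  {p | ∀ ξ ∈ τ, p ∉ Lev f ξ ∧ (∀ β ∈ σ, pr p ξ ∈ V f β ↔ y ξ ∈ V f β) ∧
    (∀ q, y ξ = .inl q → pr p ξ = .inl q) ∧ ((∀ q, y ξ ≠ .inl q) → pr p ξ ∉ Col W m)}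

theorem Nb_mono {y : J → Z W} {τ τ' : Finset J} {σ σ' : Finset W} {m m' : ℕ} (h1 : τ ⊆ τ')
    (h2 : σ ⊆ σ') (h3 : m ≤ m') : Nb f y τ' σ' m' ⊆ Nb f y τ σ m := fun _ hp ξ hξ =>
  ⟨(hp ξ (h1 hξ)).1, fun β hβ => (hp ξ (h1 hξ)).2.1 β (h2 hβ), (hp ξ (h1 hξ)).2.2.1,
    fun h4 h5 => (hp ξ (h1 hξ)).2.2.2 h4 (Col_mono h3 h5)⟩

theorem Nb_mem (y : J → Z W) (τ : Finset J) (σ : Finset W) (m : ℕ) :
    Nb f y τ σ m ∈ 𝓝 (Pt.hi y : Pt f) := by
  refine (eventually_all_finset τ).2 fun ξ _ => Eventually.and ?_ (Eventually.and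
    ((eventually_all_finset σ).2 fun β _ => (Sub.v ξ β).ev _) (Eventually.and ?_ ?_))
  · exact ((Sub.l ξ).ev _).mono fun p hp h => by simpa [Lev] using hp.1 h
  · rcases h : y ξ with q | γ
    · refine ((Sub.s ξ q).ev (Pt.hi y : Pt f)).mono fun p hp q' hq => ?_
      cases hq; exact hp.2 h
    · exact .of_forall fun _ _ h => nomatch h
  · exact ((Sub.c ξ m).ev (Pt.hi y : Pt f)).mono fun p hp h1 h2 =>
      (hp.1 h2).elim fun q hq => h1 q hq.1

theorem cluster_of {y : J → Z W} {l : Filter (Pt f)}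
    (h : ∀ τ σ m, (l ⊓ 𝓟 (Nb f y τ σ m)).NeBot) : ClusterPt (Pt.hi y) l := by
  classical
  let F : Finset J × Finset W × ℕ → Filter (Pt f) := fun d => l ⊓ 𝓟 (Nb f y d.1 d.2.1 d.2.2)
  have hA : Antitone F := fun d d' hd =>
    inf_le_inf_left _ (principal_mono.2 (Nb_mono hd.1 hd.2.1 hd.2.2))
  have hne : (⨅ d, F d).NeBot := iInf_neBot_of_directed' hA.directed_ge fun d => h _ _ _
  refine hne.mono (le_inf ?_ ((iInf_le _ default).trans inf_le_left))
  have e : ∀ ξ (σ : Finset W) m, ∀ᶠ p in ⨅ d, F d, p ∉ Lev f ξ ∧ (∀ β ∈ σ, pr p ξ ∈ V f β ↔ y ξ ∈ V f β) ∧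
      (∀ q, y ξ = .inl q → pr p ξ = .inl q) ∧ ((∀ q, y ξ ≠ .inl q) → pr p ξ ∉ Col W m) := by
    intro ξ σ m
    filter_upwards [iInf_le F ({ξ}, σ, m) (mem_inf_of_right (mem_principal_self _))] with p hp
    exact hp ξ (Finset.mem_singleton_self ξ)
  refine tendsto_id'.1 (tendsto_iff.2 fun s hs => ?_)
  cases hs with
  | v ξ α => exact (e ξ {α} 0).mono fun p hp => hp.2.1 α (Finset.mem_singleton_self α)
  | s ξ q =>
    refine (e ξ ∅ (q.1 + 1)).mono fun p hp => ⟨fun h1 => ?_, hp.2.2.1 q⟩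
    by_cases h2 : ∃ q', y ξ = .inl q'
    · obtain ⟨q', h2⟩ := h2
      exact h2.trans ((hp.2.2.1 q' h2).symm.trans h1)
    · exact absurd ⟨q, h1, Nat.lt_succ_self _⟩ (hp.2.2.2 fun q' h3 => h2 ⟨q', h3⟩)
  | c ξ m =>
    refine (e ξ ∅ m).mono fun p hp => ?_
    by_cases h2 : ∃ q', y ξ = .inl q'
    · obtain ⟨q', h2⟩ := h2
      change pr p ξ ∈ Col W m ↔ y ξ ∈ Col W m
      rw [hp.2.2.1 q' h2, h2]
    · exact iff_of_false (hp.2.2.2 fun q' h3 => h2 ⟨q', h3⟩) fun ⟨q', h3, _⟩ => h2 ⟨q', h3⟩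
  | l γ => exact (e γ ∅ 0).mono fun p hp => iff_of_false hp.1 (by simp [Lev])
  | e γ n k => exact (e γ ∅ 0).mono fun p hp =>
      iff_of_false (fun ⟨g', ε, h2, _⟩ => hp.1 ⟨γ, g', ε, h2, le_rfl⟩) (by simp)
  | i γ g' => exact (e γ ∅ 0).mono fun p hp =>
      iff_of_false (fun h2 => hp.1 ⟨γ, g', true, h2, le_rfl⟩) (by simp)

def K' (f : W → ℕ → ℕ) (y : J → Z W) (l : Filter (Pt f)) : Prop :=
  ∀ τ σ m, ∃ v : J → Z W, (∀ ξ ∈ τ, v ξ ≠ .inr ⊤) ∧
    (l ⊓ 𝓟 (Nb f y τ σ m ∩ {p | ∀ ξ ∈ τ, pr p ξ = v ξ})).NeBot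

theorem K'.k (h : Scale W f) {y : J → Z W} {l : Filter (Pt f)} (hk : K' f y l)
    (τ : Finset J) (σ : Finset W) : ∃ β : J → W, ∀ m, (l ⊓ 𝓟 (Nb f y τ σ m ∩
      {p | ∀ ξ ∈ τ, (∀ q, y ξ ≠ .inl q) → pr p ξ ∈ V f (β ξ)})).NeBot := by
  classical
  choose v hv1 hv2 using hk τ σ
  obtain ⟨M, hM, β, hβ⟩ := thin h (τ.filter fun ξ => ∀ q, y ξ ≠ .inl q) v fun m ξ hξ => by
    rw [Finset.mem_filter] at hξ
    obtain ⟨p, hp1, hp2⟩ := (hv2 m).nonempty_of_mem (mem_inf_of_right (mem_principal_self _))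
    exact ⟨hv1 m ξ hξ.1, hp2 ξ hξ.1 ▸ (hp1 ξ hξ.1).2.2.2 hξ.2⟩
  refine ⟨β, fun m => ?_⟩
  obtain ⟨m', h1, h2⟩ := hM.exists_gt m
  refine (hv2 m').mono (inf_le_inf_left _ (principal_mono.2 fun p hp =>
    ⟨Nb_mono subset_rfl subset_rfl h2.le hp.1, fun ξ hξ h3 => ?_⟩))
  rw [hp.2 ξ hξ]
  exact hβ ξ (Finset.mem_filter.2 ⟨hξ, h3⟩) m' h1

theorem mk_finset_lt {α : Type} {κ : Cardinal} (h0 : ℵ₀ < κ) (h : Cardinal.mk α < κ) :
    Cardinal.mk (Finset α) < κ := by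
  cases finite_or_infinite α
  · exact (lt_aleph0_of_finite _).trans h0
  · rwa [mk_finset_of_infinite]

omit [Inhabited W] in
theorem closure_pt [WellFoundedLT W] (h : Scale W f) (hW : Cardinal.mk J < Cardinal.mk W)
    (β : Bool → Finset J → Finset W → J → W) : ∃ ω : W, ∀ σ : Finset W, (∀ a ∈ σ, a < ω) →
      ∀ j τ ξ, β j τ σ ξ ≤ ω := by
  classical
  have h0 := h.aleph0_lt
  have step : ∀ a : W, ∃ c, a < c ∧ ∀ σ : Finset W, (∀ x ∈ σ, x < a) →
      ∀ j τ ξ, β j τ σ ξ < c := by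
    intro a
    obtain ⟨c, hc⟩ := h.bound (ι := Bool × Finset J × Finset (Iio a) × J) (by
      simp only [mk_prod, lift_id]
      exact mul_lt_of_lt h0.le ((lt_aleph0_of_finite _).trans h0) (mul_lt_of_lt h0.le
        (mk_finset_lt h0 hW) (mul_lt_of_lt h0.le (mk_finset_lt h0 (h.small a)) hW)))
      fun d => β d.1 d.2.1 (d.2.2.1.map (Embedding.subtype _)) d.2.2.2
    obtain ⟨c', hc'⟩ := h.bound_countable ((countable_singleton a).insert c)
    refine ⟨c', hc' a (Or.inr rfl), fun σ hσ j τ ξ => ?_⟩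
    have := hc (j, τ, σ.subtype (· ∈ Iio a), ξ)
    simp only [Finset.subtype_map_of_mem (p := (· ∈ Iio a)) hσ] at this
    exact this.trans (hc' c (Or.inl rfl))
  choose nx hn1 hn2 using step
  obtain ⟨a0, -⟩ := h.bound_countable countable_empty
  let a : ℕ → W := fun n => nx^[n] a0
  have ha : ∀ n, a (n + 1) = nx (a n) := fun n => iterate_succ_apply' _ _ _
  have hm : Monotone a := monotone_nat_of_le_succ fun n => by rw [ha]; exact (hn1 _).le
  obtain ⟨c, hc⟩ := h.bound_countable (countable_range a)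
  obtain ⟨ω, h1, h2⟩ := wellFounded_lt.has_min {c | ∀ n, a n ≤ c} ⟨c, fun n => (hc _ ⟨n, rfl⟩).le⟩
  refine ⟨ω, fun σ hσ j τ ξ => ?_⟩
  have h3 : ∀ x ∈ σ, ∀ᶠ n in atTop, x < a n := fun x hx => by
    obtain ⟨n, hn⟩ : ∃ n, x < a n := by simpa using fun h4 => h2 x h4 (hσ x hx)
    exact (eventually_ge_atTop n).mono fun m hm' => hn.trans_le (hm hm')
  obtain ⟨n, hn⟩ := ((eventually_all_finset σ).2 h3).exists
  exact (hn2 _ σ hn j τ ξ).le.trans (ha n ▸ h1 (n + 1))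

theorem common [WellFoundedLT W] (h : Scale W f) (hW : Cardinal.mk J < Cardinal.mk W)
    {y : J → Z W} (hy : Pt.hi y ∈ Xt f) (l : Bool → Filter (Pt f)) (hl : ∀ j, K' f y (l j)) :
    ∃ p ∈ X f, ∀ j, ClusterPt p (l j) := by
  classical
  choose β hβ using fun j => (hl j).k h
  obtain ⟨ω, hω⟩ := closure_pt h hW β
  let y' : J → Z W := fun ξ => Sum.map id (fun γ => min γ ↑ω) (y ξ)
  have e1 : ∀ ξ q, y' ξ = .inl q ↔ y ξ = .inl q := fun ξ q => by
    simp only [y']; cases y ξ <;> simp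
  refine ⟨.hi y', ⟨fun ξ η q q' a1 a2 a3 => hy ξ η q q' ((e1 _ _).1 a1) ((e1 _ _).1 a2) a3,
    fun ξ => ?_⟩, fun j => cluster_of fun τ σ m => ?_⟩
  · simp only [pr, y']
    cases y ξ <;> simp
  have h1 := hω (σ.filter (· < ω)) (fun a ha => (Finset.mem_filter.1 ha).2) j τ
  set b := β j τ (σ.filter (· < ω))
  have h2 : ∀ ξ ∈ τ, ∀ a ∈ σ, ∀ᶠ n in atTop, ω ≤ a → V f (b ξ) ⊆ V f a ∪ Col W n := by
    intro ξ _ a _
    by_cases h3 : ω ≤ a
    · obtain ⟨n, hn⟩ := V_sub h ((h1 ξ).trans h3)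
      exact (eventually_ge_atTop n).mono fun n' h4 _ =>
        hn.trans (union_subset_union_right _ (Col_mono h4))
    · exact .of_forall fun _ h4 => absurd h4 h3
  obtain ⟨n, h3, h4⟩ := (((eventually_all_finset τ).2 fun ξ hξ => (eventually_all_finset σ).2
    (h2 ξ hξ)).and (eventually_ge_atTop m)).exists
  refine (hβ j τ (σ.filter (· < ω)) n).mono (inf_le_inf_left _ (principal_mono.2 ?_))
  rintro p ⟨hp, hp'⟩ ξ hξ
  obtain ⟨a1, a2, a3, a4⟩ := hp ξ hξ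
  refine ⟨a1, fun a ha => ?_, fun q hq => a3 q ((e1 _ _).1 hq),
    fun h5 h6 => a4 (fun q hq => h5 q ((e1 _ _).2 hq)) (Col_mono h4 h6)⟩
  rcases h5 : y ξ with q | γ
  · rw [a3 q h5, (e1 _ _).2 h5]
  have h6 : ∀ q, y ξ ≠ .inl q := fun q => by simp [h5]
  have h7 : y' ξ = .inr (min γ ↑ω) := by simp only [y', h5, Sum.map_inr]
  rw [h7]
  by_cases h8 : a < ω
  · rw [a2 a (Finset.mem_filter.2 ⟨ha, h8⟩), h5]
    simp only [V, mem_ofPred_eq, Sum.elim_inr, min_le_iff, WithTop.coe_le_coe, not_le.2 h8,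
      or_false]
  · refine iff_of_true ((h3 ξ hξ a ha (not_lt.1 h8) (hp' ξ hξ h6)).resolve_right (a4 h6)) ?_
    simp only [V, mem_ofPred_eq, Sum.elim_inr, min_le_iff, WithTop.coe_le_coe, not_lt.1 h8,
      or_true]

theorem normal_X [WellFoundedLT W] (h : Scale W f) (hW : Cardinal.mk J < Cardinal.mk W) :
    NormalSpace (X f) := by
  refine ⟨fun F G hF hG hd => ?_⟩
  have : LindelofSpace (Xt f) := isLindelof_iff_lindelofSpace.1 (lind_Xt h)
  let ι : X f → Xt f := inclusion fun p hp => hp.1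
  have hι : Continuous ι := continuous_inclusion _
  have hcl : ∀ (S : Set (X f)), IsClosed S → ∀ p (hp : p ∈ X f),
      p ∈ closure (Subtype.val '' S) → (⟨p, hp⟩ : X f) ∈ S := fun S hS p hp h1 =>
    hS.closure_subset (closure_subtype.2 h1)
  have hsep : Disjoint (Subtype.val ⁻¹' closure (Subtype.val '' F) : Set (Xt f))
      (Subtype.val ⁻¹' closure (Subtype.val '' G)) := by
    refine disjoint_left.2 ?_
    rintro ⟨⟨β, g, ε⟩ | y, hp⟩ h1 h2
    · exact disjoint_left.1 hd (hcl F hF _ (lo_mem β g ε) h1) (hcl G hG _ (lo_mem β g ε) h2)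
    · have k : ∀ S : Set (X f), Pt.hi y ∈ closure (Subtype.val '' S) →
          K' f y (𝓟 (Subtype.val '' S)) := by
        intro S hS τ σ m
        obtain ⟨_, h3, q, h4, rfl⟩ := mem_closure_iff_nhds.1 hS _ (Nb_mem y τ σ m)
        refine ⟨pr q.1, fun ξ _ => q.2.2 ξ, ?_⟩
        rw [inf_principal, principal_neBot_iff]
        exact ⟨q.1, ⟨q, h4, rfl⟩, h3, fun _ _ => rfl⟩
      obtain ⟨p, hp, h3⟩ := common h hW hp
        (fun j => cond j (𝓟 (Subtype.val '' F)) (𝓟 (Subtype.val '' G)))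
        (fun j => by cases j; exacts [k G h2, k F h1])
      exact disjoint_left.1 hd (hcl F hF p hp (mem_closure_iff_clusterPt.2 (h3 true)))
        (hcl G hG p hp (mem_closure_iff_clusterPt.2 (h3 false)))
  refine ((NormalSpace.normal _ _ (isClosed_closure.preimage continuous_subtype_val)
    (isClosed_closure.preimage continuous_subtype_val) hsep).preimage hι).mono ?_ ?_
  · exact fun p hp => subset_closure ⟨p, hp, rfl⟩
  · exact fun p hp => subset_closure ⟨p, hp, rfl⟩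

theorem caseB [WellFoundedLT W] (h : Scale W f) (hW : Cardinal.mk J < Cardinal.mk W) : Goal := by
  classical
  have := normal_X h hW
  have : T4Space (X f) := {}
  refine red' (X := X f) {p | ∃ β g, p.1 = .lo β g true} ?_ (fun l _ _ hl => ?_) fun L hL hL' => ?_
  · rintro ⟨_, hp⟩ ⟨β, g, rfl⟩
    convert (Sub.i (f := f) β g).isOpen.preimage continuous_subtype_val using 1
    ext q; simp [Subtype.ext_iff]
  · suffices ∃ p ∈ X f, ClusterPt p (map Subtype.val l) by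
      obtain ⟨p, hp, h1⟩ := this
      exact ⟨⟨p, hp⟩, IsInducing.subtypeVal.mapClusterPt_iff.1 h1⟩
    have h0 : map Subtype.val l ≤ 𝓟 (Xt f) :=
      le_principal_iff.2 (mem_map.2 (univ_mem' fun p => p.2.1))
    obtain ⟨⟨β, g, ε⟩ | y, h1, h2⟩ := lind_Xt h h0
    · exact ⟨_, lo_mem β g ε, h2⟩
    obtain ⟨p, hp, h3⟩ := common h hW h1 (fun _ => map Subtype.val l) fun _ τ σ m => by
      have : (map Subtype.val l ⊓ 𝓟 (Nb f y τ σ m)).NeBot := h2.neBot.mono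
        (le_inf inf_le_right (inf_le_left.trans (le_principal_iff.2 (Nb_mem y τ σ m))))
      let dec : Option (ℕ × ℕ) → Z W := fun o => o.elim (.inr ↑(default : W)) .inl
      obtain ⟨a, -, ha⟩ := exists_neBot (l := map Subtype.val l ⊓ 𝓟 (Nb f y τ σ m))
        (countable_univ (α := τ → Option (ℕ × ℕ))) (fun a => {p | ∀ ξ : τ, pr p ξ = dec (a ξ)})
        (mem_inf_of_left (mem_map.2 (mem_of_superset hl (by
          rintro p ⟨β, g, hp⟩
          refine mem_biUnion (x := fun ξ : τ => if ξ.1 < β then some (inj β ξ, g (inj β ξ))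
            else none) trivial fun ξ => ?_
          simp only [hp, pr]
          split_ifs <;> rfl))))
      refine ⟨fun ξ => if h : ξ ∈ τ then dec (a ⟨ξ, h⟩) else .inl 0, fun ξ hξ => ?_, ?_⟩
      · simp only [hξ, dite_true, dec]
        cases a ⟨ξ, hξ⟩ <;> simp
      · rw [inf_assoc, inf_principal] at ha
        refine ha.mono (inf_le_inf_left _ (principal_mono.2 fun p hp => ⟨hp.1, fun ξ hξ => ?_⟩))
        simp only [hξ, dite_true]
        exact hp.2 ⟨ξ, hξ⟩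
    exact ⟨p, hp, h3 true⟩
  · have hb : ∀ ξ, ∃ α, ∀ p ∈ L, ∀ γ : W, pr p.1 ξ = .inr ↑γ → γ < α := by
      intro ξ
      obtain ⟨r, h1, h2⟩ := hL'.elim_countable_subcover
        (fun α => Subtype.val ⁻¹' ({p | pr p ξ ∈ V f α} ∪ ⋃ m, {p | pr p ξ ∈ Col W m}))
        (fun α => ((Sub.v ξ α).isOpen.union
          (isOpen_iUnion fun m => (Sub.c ξ m).isOpen)).preimage continuous_subtype_val) (by
          intro p _
          rcases h3 : pr p.1 ξ with q | γ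
          · exact mem_iUnion.2 ⟨default, Or.inr (mem_iUnion.2 ⟨_, q, h3, Nat.lt_succ_self _⟩)⟩
          · have h6 : γ ≠ ⊤ := fun h5 => p.2.2 ξ (h5 ▸ h3)
            obtain ⟨γ, rfl⟩ := WithTop.ne_top_iff_exists.1 h6
            refine mem_iUnion.2 ⟨γ, Or.inl ?_⟩
            rw [mem_ofPred_eq, h3]; exact le_refl (γ : WithTop W))
      obtain ⟨α, hα⟩ := h.bound_countable h1
      refine ⟨α, fun p hp γ h3 => ?_⟩
      obtain ⟨a, h4, h5 | h5⟩ := mem_iUnion₂.1 (h2 hp)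
      · rw [mem_ofPred_eq, h3] at h5
        exact (WithTop.coe_le_coe.1 h5).trans_lt (hα a h4)
      · obtain ⟨m, q, h6, -⟩ := mem_iUnion.1 h5
        rw [h3] at h6; cases h6
    choose α hα using hb
    obtain ⟨ω, hω⟩ := h.bound hW α
    let φ : J → X f := fun β => ⟨.lo β (fun n => f ω n + 1) true, lo_mem _ _ _⟩
    have : (cocountable (α := J)).NeBot := ⟨fun h => not_countable_univ (by
      simpa using (mem_cocountable (s := (∅ : Set J))).1 (by rw [h]; exact mem_bot))⟩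
    have : CountableInterFilter (cocountable (α := J)) := ⟨fun S hS h1 => mem_cocountable.2 (by
      rw [compl_sInter]
      exact (hS.image _).sUnion (by
        rintro _ ⟨s, hs, rfl⟩
        exact mem_cocountable.1 (h1 s hs)))⟩
    have hev : ∀ ξ : J, ∀ᶠ β in cocountable, ξ < β := fun ξ =>
      mem_cocountable.2 ((cI ξ).mono fun β hβ => (not_lt (a := ξ) (b := β)).1 hβ)
    obtain ⟨⟨p, hp⟩, h1, h2⟩ := hL' (f := map φ cocountable)
      (le_principal_iff.2 (mem_map.2 (univ_mem' fun β => hL ⟨β, _, rfl⟩)))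
    have h3 : ∀ s, Sub s → p ∈ s → ∃ᶠ β in cocountable, (φ β).1 ∈ s := fun s hs h4 =>
      mapClusterPt_iff_frequently.1 h2 _ ((hs.isOpen.preimage continuous_subtype_val).mem_nhds h4)
    rcases p with ⟨β, g, ε⟩ | y
    · obtain ⟨γ, h4, h5⟩ := ((h3 _ (.l β) (lo_lev.2 le_rfl)).and_eventually (hev β)).exists
      exact absurd (lo_lev.1 h4) (not_le.2 h5)
    · have h4 : ∀ ξ, ∃ q, y ξ = .inl q := fun ξ => by
        rcases h4 : y ξ with q | γ
        · exact ⟨q, rfl⟩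
        have h6 : γ ≠ ⊤ := fun h5 => hp.2 ξ (h5 ▸ h4)
        obtain ⟨γ, rfl⟩ := WithTop.ne_top_iff_exists.1 h6
        obtain ⟨β, h7, h8⟩ := ((h3 _ (.v ξ ω) (by
          simp only [mem_ofPred_eq, pr, h4]
          exact WithTop.coe_le_coe.2 ((hα ξ _ h1 γ h4).trans (hω ξ)).le)).and_eventually
          (hev ξ)).exists
        simp [φ, pr, h8, V] at h7
      choose q hq using h4
      exact not_injective_uncountable_countable (fun ξ => (q ξ).1)
        fun ξ η h5 => hp.1 ξ η _ _ (hq ξ) (hq η) h5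

end

theorem main : Goal := by
  obtain ⟨W, _, _, f, h⟩ := exists_scale
  by_cases hW : Cardinal.mk J < Cardinal.mk W
  · obtain ⟨a0, -⟩ := h.bound_countable countable_empty
    have : Inhabited W := ⟨a0⟩
    exact caseB h hW
  · refine caseA h fun a => ?_
    rw [← Iio_union_right]
    refine Countable.union ?_ (countable_singleton a)
    rw [← le_aleph0_iff_set_countable, ← Order.lt_succ_iff, succ_aleph0]
    exact (h.small a).trans_le ((not_lt.1 hW).trans_eq (mk_ord_toType _))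

end Pool.Agent.H.MP_eb94e1_gt
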